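import Pool.Agent.Work.MP_73831e_pr.F.Mass

/-!
FIXED DEFINITIONS for block S1 (folder F/S1): existence of fully critical vertices of bounded degree,
for infinitely many `n`.
-/

open Finset
open scoped Classical Nat

namespace Pool.Agent.Work.MP_73831e_pr.F

noncomputable section

/-- Rate of the tail: at time `C n`, with probability at least `1 - n^(-3)`, no deletion of the star
of one vertex makes the graph `(m+1)`-colourable. -/
def Tail (m C : ℕ) : Prop :=
  ∃ n₀ : ℕ, ∀ n ≥ n₀,
    prob (fun ω : Ordr (Pr n) => ∃ x, Alive (m + 1) (gr (pre ω (C * n) \ st x)))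
      ≤ 1 / (n : ℝ) ^ 3

/-- The `nu`-mass of `Fa` on `n` vertices. -/
def rho (m M n : ℕ) : ℝ := ∑ E ∈ univ.filter (fun E : Finset (Pr n) => Fa m M E), nu E

/-- Pairs of `[n]` as pairs of `[n+1]`. -/
def up {n : ℕ} : Pr n ↪ Pr (n + 1) where
  toFun e := ⟨Sym2.map Fin.castSucc e.1, fun h =>
    e.2 ((Sym2.isDiag_map (Fin.castSucc_injective n)).1 h)⟩
  inj' := fun e e' h => Subtype.ext
    (Sym2.map.injective (Fin.castSucc_injective n) (congrArg Subtype.val h))

/-- The restriction to the first `n` vertices. -/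
def dn {n : ℕ} (D : Finset (Pr (n + 1))) : Finset (Pr n) :=
  univ.filter (fun e => up e ∈ D)

/-- The untruncated star sum. -/
def ssum (m M n : ℕ) : ℝ :=
  ∑ D : Finset (Pr n),
    nu D * ((univ.filter (fun x => Fa m M (D \ st x) ∧ ¬ Fa m M D)).card : ℝ)

end

end Pool.Agent.Work.MP_73831e_pr.F
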