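import Pool.Agent.Work.MP_73831e_pr.F.S2.Nu
import Pool.Agent.Work.MP_73831e_pr.F.S2.Disc
import Pool.Agent.Work.MP_73831e_pr.F.S2.Exit

/-!
MODULE S1/DegM (M).  The fully critical vertices of large degree have small mass.

Let `T = C n`, `N = NN n = Fintype.card (Pr n)`.  For a fixed `D ∉ Fa` let
`crit D = {e ∈ D | Fa m M (D.erase e)}`.  If `FC m M D x` then all the edges of `D` at `x` are in
`crit D`; there are `dg D x` of them (`y ↦ s(x,y)` from `nb D x`), and an edge has two ends, so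
`∑_{x : FC D x} dg D x ≤ 2 |crit D|`; hence `K * #{x | FC D x ∧ K < dg D x} ≤ 2 |crit D|`.
Summing: `mass * K ≤ n * ∑_{|D| ≤ T, D ∉ Fa} nu D * 2 |crit D| = 2 n ∑_{(E,e)} nu (insert e E)` over
`E ∈ Fa`, `e ∉ E`, `insert e E ∉ Fa`, `|E| + 1 ≤ T` (substitution `E = D.erase e`), and
`nu (insert e E) = (|E|+1)/(N+1) wf E ≤ C n / (N + 1) * wf E` (`nu_insert`).  By `exit_prob` with
`A = Fa m M` (decreasing by `Fa.anti`) and `B = True`, `∑_{(E,e)} wf E ≤ prob (..) ≤ 1`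
(`prob_le_one`).  So `mass * K ≤ 2 n C n / (N + 1) ≤ 8 C`, as `n ^ 2 ≤ 4 (N + 1)` (`two_NN`:
`2 N = n (n - 1)`).
-/

open Finset
open scoped Classical Nat

namespace Pool.Agent.Work.MP_73831e_pr.F

theorem deg_mass {n m M C : ℕ} (K : ℕ) :
    mass (n := n) m M (C * n) (fun D x => K < dg D x) * K ≤ 8 * C := by
  sorry

end Pool.Agent.Work.MP_73831e_pr.F
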