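import Pool.Agent.Work.MP_73831e_pr.F.Defs
import Pool.Agent.Work.MP_73831e_pr.Edges

/-!
MODULE S1/Early (S-M).  Sparse graphs with few edges are in `Fa`.

Let `L = n / K₁` and `G = gr D`, `|D| ≤ L + 1`.
(a) No `Um (m+1) M`: otherwise `Um (m+1) 4` (`Um.of_le`), so `Um (m+1) (L+2)` by `sparse_um`, and
`L + 2 ≤ |D|` by `um_card`, contradiction.
(b) `Alive (m+1) G`.  Claim: for every `S : Finset (Fin n)` there is `f : Fin n → Fin (m+1)` with
`f u ≠ f v` for all adjacent `u, v ∈ S`.  Strong induction on `|S|`.  If `|S| ≤ 3 ≤ m + 1` take `f`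
injective on `S`.  If `|S| ≥ 4` some `v ∈ S` has at most 2 neighbours in `S`: otherwise counting the
pairs `(v, u)`, adjacent, both in `S`, gives `3 |S| ≤ 2 spn G S` (spn = number of edges inside `S`),
and `spn G S ≤ |D| ≤ L + 1` (the edge set of `gr D` has at most `|D|` elements), so
`3 |S| ≤ 2 (L + 1)`, `|S| ≤ L + 1`, and `Sparse L G` gives `4 spn G S < 5 |S|`, contradiction.  Colour
`S.erase v` by induction and give `v` a colour different from those of its at most 2 neighbours in
`S` (`m + 1 ≥ 3` colours; `Function.update`).  Take `S = univ`.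
-/

open Finset
open scoped Classical Nat

namespace Pool.Agent.Work.MP_73831e_pr.F

/-- twice the number of the edges inside `S` is at least the number of the adjacent pairs -/
private theorem pairs_le {n : ℕ} (G : SimpleGraph (Fin n)) (S : Finset (Fin n)) :
    ((S ×ˢ S).filter (fun z => G.Adj z.1 z.2)).card ≤ 2 * spn G S := by
  set A := (S ×ˢ S).filter (fun z : Fin n × Fin n => G.Adj z.1 z.2) with hA
  have h1 : A.card ≤ 2 * (A.image (fun z => s(z.1, z.2))).card := by
    apply card_le_mul_card_image
    intro e he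
    obtain ⟨⟨a, b⟩, -, rfl⟩ := mem_image.1 he
    have h2 : A.filter (fun z => s(z.1, z.2) = s(a, b)) ⊆ {(a, b), (b, a)} := by
      rintro ⟨x, y⟩ hz
      have h3 := (mem_filter.1 hz).2
      rw [Sym2.eq_iff] at h3
      simp only [mem_insert, mem_singleton, Prod.mk.injEq]
      exact h3
    exact (card_le_card h2).trans card_le_two
  refine h1.trans (Nat.mul_le_mul_left _ ?_)
  unfold spn
  rw [← Set.ncard_coe_finset]
  refine Set.ncard_le_ncard ?_ (Set.toFinite _)
  intro e he
  rw [mem_coe, mem_image] at he
  obtain ⟨⟨a, b⟩, hz, rfl⟩ := he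
  rw [hA, mem_filter, mem_product] at hz
  refine ⟨hz.2, fun v hv => ?_⟩
  rcases Sym2.mem_iff.1 hv with rfl | rfl
  · exact hz.1.1
  · exact hz.1.2

private theorem spn_le_card {n : ℕ} (D : Finset (Pr n)) (S : Finset (Fin n)) :
    spn (gr D) S ≤ D.card := by
  unfold spn
  calc Set.ncard {e ∈ (gr D).edgeSet | ∀ v ∈ e, v ∈ S}
      ≤ (Subtype.val '' (D : Set (Pr n))).ncard := by
        refine Set.ncard_le_ncard ?_ (Set.toFinite _)
        rintro e ⟨he, -⟩
        obtain ⟨x, hx, rfl⟩ := mem_edgeSet_gr.1 he
        exact ⟨x, hx, rfl⟩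
    _ ≤ (D : Set (Pr n)).ncard := Set.ncard_image_le (Set.toFinite _)
    _ = D.card := Set.ncard_coe_finset D

/-- a vertex with at most two neighbours in `S` -/
private theorem low {n K₁ : ℕ} {D : Finset (Pr n)}
    (hs : Sparse (n / K₁) (gr D)) (hD : D.card ≤ n / K₁ + 1) {S : Finset (Fin n)}
    (hS : S.Nonempty) : ∃ v ∈ S, (S.filter (fun u => (gr D).Adj v u)).card ≤ 2 := by
  by_cases h3 : S.card ≤ 3
  · obtain ⟨v, hv⟩ := hS
    refine ⟨v, hv, ?_⟩
    have h1 : S.filter (fun u => (gr D).Adj v u) ⊆ S.erase v := by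
      intro u hu
      rw [mem_filter] at hu
      rw [mem_erase]
      exact ⟨hu.2.ne', hu.1⟩
    have h2 := card_le_card h1
    rw [card_erase_of_mem hv] at h2
    omega
  · by_contra hcon
    push Not at hcon
    have h1 : 3 * S.card ≤ ((S ×ˢ S).filter (fun z => (gr D).Adj z.1 z.2)).card := by
      have h2 : ((S ×ˢ S).filter (fun z => (gr D).Adj z.1 z.2)).card =
          ∑ v ∈ S, (S.filter (fun u => (gr D).Adj v u)).card := by
        rw [card_filter, sum_product]
        refine sum_congr rfl fun v _ => ?_
        rw [card_filter]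
      rw [h2, mul_comm, ← smul_eq_mul, ← sum_const]
      exact sum_le_sum fun v hv => hcon v hv
    have h2 := pairs_le (gr D) S
    have h4 := spn_le_card D S
    have h5 := hs S (by omega) (by omega)
    omega

theorem fa_early {n m M K₁ : ℕ} (hm : 2 ≤ m) (hM : 4 ≤ M) {D : Finset (Pr n)}
    (hs : Sparse (n / K₁) (gr D)) (hD : D.card ≤ n / K₁ + 1) : Fa m M D := by
  refine ⟨?_, fun hU => ?_⟩
  · have key : ∀ (j : ℕ) (S : Finset (Fin n)), S.card = j → ∃ f : Fin n → Fin (m + 1),
        ∀ u ∈ S, ∀ v ∈ S, (gr D).Adj u v → f u ≠ f v := by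
      intro j
      induction j with
      | zero =>
        intro S hS
        refine ⟨fun _ => 0, fun u hu => ?_⟩
        rw [card_eq_zero.1 hS] at hu
        exact absurd hu (notMem_empty u)
      | succ j ih =>
        intro S hS
        obtain ⟨v, hv, hdeg⟩ := low hs hD (S := S) (card_pos.1 (by omega))
        obtain ⟨f, hf⟩ := ih (S.erase v) (by rw [card_erase_of_mem hv]; omega)
        have hc : ∃ c : Fin (m + 1), c ∉ (S.filter (fun u => (gr D).Adj v u)).image f := by
          by_contra hcon
          push Not at hcon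
          have h1 : (univ : Finset (Fin (m + 1))) ⊆
              (S.filter (fun u => (gr D).Adj v u)).image f := fun c _ => hcon c
          have h2 := (card_le_card h1).trans card_image_le
          rw [card_univ, Fintype.card_fin] at h2
          omega
        obtain ⟨c, hc⟩ := hc
        have hc' : ∀ u ∈ S, (gr D).Adj v u → f u ≠ c := by
          intro u hu ha he
          exact hc (mem_image.2 ⟨u, mem_filter.2 ⟨hu, ha⟩, he⟩)
        refine ⟨Function.update f v c, fun u hu w hw ha => ?_⟩
        by_cases h1 : u = v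
        · have h2 : w ≠ v := by
            rintro rfl
            exact ha.ne h1
          rw [h1, Function.update_self, Function.update_of_ne h2]
          rw [h1] at ha
          exact (hc' w hw ha).symm
        · rw [Function.update_of_ne h1]
          by_cases h2 : w = v
          · rw [h2, Function.update_self]
            rw [h2] at ha
            exact hc' u hu ha.symm
          · rw [Function.update_of_ne h2]
            exact hf u (mem_erase.2 ⟨h1, hu⟩) w (mem_erase.2 ⟨h2, hw⟩) ha
    obtain ⟨f, hf⟩ := key _ univ rfl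
    exact ⟨f, fun u v ha => hf u (mem_univ u) v (mem_univ v) ha⟩
  · have h1 := hU.of_le hM
    have h2 := um_card (k := m + 1) (by omega) le_rfl h1
    have h3 := sparse_um (k := m + 1) (by omega) hs h1
    have h4 := um_card (k := m + 1) (by omega) (by omega) h3
    omega

end Pool.Agent.Work.MP_73831e_pr.F
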