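import Pool.Agent.Work.MP_73831e_pr.F.Defs

/-!
MODULE S1/NuTime (S-M, abstract).  `nu` is the law of `pre ω t` with `t` uniform in `{0, ..., N}`.

For `|E| = t ≤ N` the number of orderings with `pre ω t = E` is `t! (N - t)!` (an ordering is
determined by an ordering of `E` and one of the complement; compare `Transfer.lean`, where
`card_pre`-like statements are proved, and `Count.lean`).  So
`prob (A (pre ω t)) = ∑_{|E| = t, A E} t! (N - t)! / N!` (`pre_card`: `|pre ω t| = t`), while
`nu E = t! (N - t)! / (N+1)!`, `(N+1)! = (N+1) N!`.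
`nu_time_sum`: sum over `t = 0, ..., N` (partition of the `E` by cardinality).
`nu_sum_one`: take `A = True`, `prob = 1`.
-/

open Finset
open scoped Classical Nat

namespace Pool.Agent.Work.MP_73831e_pr.F

theorem nu_time {P : Type} [Fintype P] {t : ℕ} (ht : t ≤ Fintype.card P) (A : Finset P → Prop) :
    ∑ E ∈ univ.filter (fun E : Finset P => E.card = t ∧ A E), nu E =
      prob (fun ω : Ordr P => A (pre ω t)) / ((Fintype.card P : ℝ) + 1) := by
  sorry

theorem nu_time_sum {P : Type} [Fintype P] (A : Finset P → Prop) :
    ∑ E ∈ univ.filter (fun E : Finset P => A E), nu E =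
      (∑ t ∈ range (Fintype.card P + 1), prob (fun ω : Ordr P => A (pre ω t))) /
        ((Fintype.card P : ℝ) + 1) := by
  sorry

theorem nu_sum_one {P : Type} [Fintype P] : ∑ E : Finset P, nu E = 1 := by
  sorry

end Pool.Agent.Work.MP_73831e_pr.F
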