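import Pool.Agent.Work.MP_73831e_pr.F.S1.Defs1
import Pool.Agent.Work.MP_73831e_pr.F.S1.NuTime

/-!
MODULE S1/RhoLim (S-M).  `rho` tends to 0.

`nu_time_sum`: `rho m M n = (∑_{t ≤ N} prob (Fa (pre ω t))) / (N + 1)`.  For `t < C n` bound the
probability by 1; for `C n ≤ t ≤ N`: `Fa (pre ω t)` implies `Alive (m+1) (gr (pre ω t))`, hence
`Alive (m+1) (gr (pre ω (C n) \ st x))` for any `x` (`Alive.anti`), so the probability is at most
`1 / n ^ 3` by `Tail` (n ≥ 1, so there is an `x`).  Therefore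
`0 ≤ rho m M n ≤ C n / (N + 1) + 1 / n ^ 3`, and `N + 1 ≥ n ^ 2 / 4` (`2 N = n (n - 1)`), so
`rho m M n ≤ 4 C / n + 1 / n ^ 3 → 0` (`squeeze_zero'`).
-/

open Finset Filter Topology
open scoped Classical Nat

namespace Pool.Agent.Work.MP_73831e_pr.F

theorem rho_lim {m M C : ℕ} (hC : 1 ≤ C) (ht : Tail m C) :
    Tendsto (fun n => rho m M n) atTop (𝓝 0) := by
  sorry

end Pool.Agent.Work.MP_73831e_pr.F
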