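import Pool.Agent.Work.MP_73831e_pr.F.S1.Defs1
import Pool.Agent.Work.MP_73831e_pr.F.S1.Early
import Pool.Agent.Work.MP_73831e_pr.F.S1.NuTime

/-!
MODULE S1/RhoLow (S-M).  Lower bound of `rho`.

By `Typical` with `ε = 1/2`, for `n` large `Ty (pre ω (C n))` has probability at least `1/2`
(`prob` of the complement `≤ 1/2`; `prob A + prob (¬ A) = 1`).  For `t ≤ n / K₁` (`≤ n ≤ C n`) and such
`ω`, `gr (pre ω t) ≤ gr (pre ω (C n))` is `Sparse (n / K₁)` (`Sparse.anti`, `pre_mono`, `gr_mono`) and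
`|pre ω t| ≤ t` so `fa_early` gives `Fa m M (pre ω t)`.  So `prob (Fa (pre ω t)) ≥ 1/2` for all
`t ≤ n / K₁`, and `nu_time_sum` gives
`rho m M n ≥ (n / K₁ + 1) (1/2) / (N + 1) ≥ (n / K₁) / (2 (N+1))` (real division: `n / K₁ + 1 ≥ n/K₁`
as reals), with `N + 1 ≤ n ^ 2` (`N = n (n-1) / 2`): `rho ≥ 1 / (2 K₁ n)`.  `c = 1 / (2 K₁)`.
(Also `n / K₁ ≤ N` is needed for the range of `t`: `n ≤ N` for `n ≥ 3`.)
-/

open Finset
open scoped Classical Nat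

namespace Pool.Agent.Work.MP_73831e_pr.F

theorem rho_low {m M C K₁ K₃ K₄ : ℕ} (hm : 2 ≤ m) (hM : 4 ≤ M) (hty : Typical m C K₁ K₃ K₄) :
    ∃ c : ℝ, 0 < c ∧ ∃ n₀ : ℕ, ∀ n ≥ n₀, c / n ≤ rho m M n := by
  sorry

end Pool.Agent.Work.MP_73831e_pr.F
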