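import Mathlib

/-!
MODULE S1/Tele (S, only real numbers).  If `ρ n → 0` and `ρ n ≥ c / n` for large `n`, then
`ρ n - ρ (n+1) ≥ (c/2) / (n+1)^2` for infinitely many `n`.

Otherwise for all `n ≥ n₁ ≥ 1`: `ρ n - ρ (n+1) < (c/2) / (n+1)^2 ≤ (c/2) (1/n - 1/(n+1))`.  By
induction on `k`: `ρ n - ρ (n+k) ≤ (c/2) (1/n - 1/(n+k)) ≤ (c/2)/n`.  Let `k → ∞`: `ρ n ≤ (c/2)/n`,
which contradicts `ρ n ≥ c/n`, `c > 0`, `n ≥ 1`.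
-/

open Filter Topology

namespace Pool.Agent.Work.MP_73831e_pr.F

theorem tele {ρ : ℕ → ℝ} {c : ℝ} (hc : 0 < c) (h0 : Tendsto ρ atTop (𝓝 0)) {n₀ : ℕ}
    (hlow : ∀ n ≥ n₀, c / n ≤ ρ n) :
    ∃ᶠ n : ℕ in atTop, (c / 2) / ((n : ℝ) + 1) ^ 2 ≤ ρ n - ρ (n + 1) := by
  sorry

end Pool.Agent.Work.MP_73831e_pr.F
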