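import Pool.Agent.Work.MP_73831e_pr.F.S1.Defs1
import Pool.Agent.Work.MP_73831e_pr.F.S1.NuTime

/-!
MODULE S1/Trunc (S-M).  The star sum is carried by graphs with at most `C n` edges.

`n * ssum m M n = smass m M (C n) True + n * ∑_{|D| > C n} nu D #{x | Fa (D \ st x) ∧ ¬ Fa D}`.  In the
second sum `#{x | ..} ≤ n [∃ x, Alive (m+1) (gr (D \ st x))]`, so it is at most
`n * n * ∑_{|D| > C n, ∃ x, Alive (gr (D \ st x))} nu D`, and by `nu_time` (for each `t > C n`,
`t ≤ N`) or by `nu_time_sum` applied to `A D := C n < |D| ∧ ∃ x, Alive (gr (D \ st x))` (for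
`t ≤ C n` the probability of `A (pre ω t)` is 0 as `|pre ω t| ≤ t`)
`∑_{..} nu D ≤ (1/(N+1)) ∑_{t ≤ N} prob (∃ x, Alive (gr (pre ω (C n) \ st x))) ≤ 1 / n ^ 3`, because
for `t > C n` the graph `pre ω t \ st x` contains `pre ω (C n) \ st x` (`Alive.anti`, `gr_mono`).
So the second term is at most `n ^ 2 / n ^ 3 = 1 / n`.
-/

open Finset
open scoped Classical Nat

namespace Pool.Agent.Work.MP_73831e_pr.F

theorem trunc {m C : ℕ} (ht : Tail m C) : ∃ n₀ : ℕ, ∀ n ≥ n₀, ∀ M : ℕ,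
    n * ssum m M n ≤ smass (n := n) m M (C * n) (fun _ _ => True) + 1 / n := by
  sorry

end Pool.Agent.Work.MP_73831e_pr.F
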