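import Pool.Agent.Work.MP_73831e_pr.F.S1.Star
import Pool.Agent.Work.MP_73831e_pr.F.S1.RhoLow
import Pool.Agent.Work.MP_73831e_pr.F.S1.RhoLim
import Pool.Agent.Work.MP_73831e_pr.F.S1.Tele
import Pool.Agent.Work.MP_73831e_pr.F.S1.Trunc
import Pool.Agent.Work.MP_73831e_pr.F.S1.DegM
import Pool.Agent.Work.MP_73831e_pr.F.S2.Smass

/-!
MODULE S1/FcMass (S-M, assembly).  For infinitely many `n` the fully critical vertices of bounded
degree have mass bounded below.

`rho_low` (constant `c₀`), `rho_lim`, `tele`: for infinitely many `n`,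
`rho n - rho (n+1) ≥ (c₀/2) / (n+1)^2`.  For such `n`, large, by `ssum_eq`:
`(n+1) * ssum m M (n+1) = (n+1)^2 (rho n - rho (n+1)) ≥ c₀ / 2`, so by `trunc` at `n + 1`:
`smass m M (C (n+1)) True ≥ c₀/2 - 1/(n+1) ≥ c₀/4`.  `smass_le` with `Q = True` (`Hered` trivially):
`mass m M (C (n+1)) True ≥ c₀ / (4 C₁)`.  `mass_split` with `Q = True`, `R D x = (dg D x ≤ K)`, and
`deg_mass`: the part with `¬ (dg D x ≤ K)` is at most `8 C / K ≤ c₀ / (8 C₁)` for
`K = ⌈64 C C₁ / c₀⌉ + 1`.  So `c = c₀ / (8 C₁)`.  Frequently in `n + 1` gives frequently in `n`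
(`Filter.frequently_atTop`: for every bound there is a larger good index; use the index `n + 1`).
-/

open Finset Filter Topology
open scoped Classical Nat

namespace Pool.Agent.Work.MP_73831e_pr.F

theorem fc_mass {m M C K₁ K₃ K₄ : ℕ} (hm : 2 ≤ m) (hM : 4 ≤ M) (hty : Typical m C K₁ K₃ K₄)
    (ht : Tail m C) :
    ∃ c : ℝ, 0 < c ∧ ∃ K : ℕ, ∃ᶠ n : ℕ in atTop,
      c ≤ mass (n := n) m M (C * n) (fun D x => dg D x ≤ K) := by
  sorry

end Pool.Agent.Work.MP_73831e_pr.F
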