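import Pool.Agent.Work.MP_73831e_pr.F.S1.Defs1

/-!
MODULE S1/Lift (M).  `Fa` for a graph on `[n+1]` with the last vertex made isolated is `Fa` for the
graph induced on the first `n` vertices.

Let `D' = D \ st (Fin.last n)`, `E = dn D`.  For `u v : Fin n`:
`(gr E).Adj u v ↔ (gr D').Adj u.castSucc v.castSucc` (`gr_adj'` or `mem_iff_adj` of Basic;
`s(u.castSucc, v.castSucc)` does not contain `Fin.last n`), and `Fin.last n` is isolated in `gr D'`.
Alive: restrict a colouring along `castSucc`; extend a colouring of `gr E` by any colour at the last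
vertex (`Fin.snoc` / `Fin.lastCases`).
`Um (m+1) M (gr E) → Um (m+1) M (gr D')`: map `H, W` along `castSucc` (`SimpleGraph.map`,
`Finset.map`); colourings of the image restrict to colourings of `H`.
`Um (m+1) M (gr D') → Um (m+1) M (gr E)`: let `H ≤ gr D'`, `W`, `UQ (m+1) H W`, `|W| ≥ M ≥ 2`.  The
last vertex `z` is isolated in `H`, and it is not in `W`: otherwise choose `w ∈ W`, `w ≠ z`, a
colouring `f` of `H`; let `f1`, `f2` be `f` changed at `z` to `f w` and to some colour `≠ f w`
(`m + 1 ≥ 2`); both are proper, and the permutation `π` with `f2 = π f1` on `W` fixes `f w` (at `w`)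
and sends `f w` to a different colour (at `z`): contradiction.  So `W` is the image of a finset of
`Fin n` and the comap of `H` along `castSucc` works (colourings of the comap extend by any colour
at `z`).
-/

open Finset
open scoped Classical Nat

namespace Pool.Agent.Work.MP_73831e_pr.F

theorem fa_lift {n m M : ℕ} (hm : 1 ≤ m) (hM : 2 ≤ M) (D : Finset (Pr (n + 1))) :
    Fa m M (D \ st (Fin.last n)) ↔ Fa m M (dn D) := by
  sorry

end Pool.Agent.Work.MP_73831e_pr.F
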