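import Pool.Agent.Work.MP_73831e_pr.F.Defs

/-!
MODULE S1/Proj (S-M, abstract).  Projectivity of `nu`.

Let `w N e = e! (N - e)! / (N+1)!` (a real number), `nu E = w |P| |E|`.
(1) For `e ≤ N`: `w (N+1) e + w (N+1) (e+1) = w N e`, because
`e! (N+1-e)! + (e+1)! (N-e)! = e! (N-e)! (N+2)`.
(2) For a finite type `Q`, a finset `R ⊆ Q` (think of the range of `j`), `E ⊆ R`: for every finset `S`
disjoint from `R`: `∑_{Y ⊆ S} w (|R| + |S|) (|E| + |Y|) = w |R| |E|`: induction on `S`
(`Finset.sum_powerset_insert`), using (1).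
(3) Every `D : Finset Q` is uniquely `E.map j ∪ Y` with `E = {p | j p ∈ D}` and
`Y ⊆ univ \ range j`; apply (2) with `R` = image of `j`, `S` = complement, `|R| + |S| = |Q|`.
(Group the sum over `D` by `E`: `Finset.sum_fiberwise` or `Finset.sum_bij'` with the product
`univ ×ˢ S.powerset`.)
-/

open Finset
open scoped Classical Nat

namespace Pool.Agent.Work.MP_73831e_pr.F

theorem nu_proj {P Q : Type} [Fintype P] [Fintype Q] (j : P ↪ Q) (g : Finset P → ℝ) :
    ∑ D : Finset Q, nu D * g (univ.filter (fun p => j p ∈ D)) = ∑ E : Finset P, nu E * g E := by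
  sorry

end Pool.Agent.Work.MP_73831e_pr.F
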