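import Pool.Agent.Work.MP_73831e_pr.F.S1.Defs1

/-!
MODULE S1/Symm (M).  Relabelling of the vertices.

For a permutation `σ` of `Fin n` let `σ` act on `Pr n` by `e ↦ Sym2.map σ e` (an equivalence
`Pr n ≃ Pr n`) and on `Finset (Pr n)` by `Finset.map`.  `gr (σ D)` has
`(gr (σ D)).Adj (σ u) (σ v) ↔ (gr D).Adj u v`.  `Fa m M (σ D) ↔ Fa m M D`: transport colourings by
`f ∘ σ⁻¹` and the pairs `H, W` of `Um` by `SimpleGraph.map`/`Finset.map` (prove one implication for
all `σ` and apply it to `σ⁻¹`).  `σ (D \ st x) = σ D \ st (σ x)`, `nu (σ D) = nu D` (same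
cardinality).  With `σ = Equiv.swap x y` the map `D ↦ σ D` is a bijection between the two index sets
(`Finset.sum_bij'` or `Finset.sum_equiv`).
-/

open Finset
open scoped Classical Nat

namespace Pool.Agent.Work.MP_73831e_pr.F

theorem fa_symm {n m M : ℕ} (x y : Fin n) :
    ∑ D ∈ univ.filter (fun D : Finset (Pr n) => Fa m M (D \ st x)), nu D =
      ∑ D ∈ univ.filter (fun D : Finset (Pr n) => Fa m M (D \ st y)), nu D := by
  sorry

end Pool.Agent.Work.MP_73831e_pr.F
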