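import Pool.Agent.Work.MP_73831e_pr.F.S1.Lift
import Pool.Agent.Work.MP_73831e_pr.F.S1.Symm
import Pool.Agent.Work.MP_73831e_pr.F.S1.Proj
import Pool.Agent.Work.MP_73831e_pr.F.S2.Disc

/-!
MODULE S1/Star (S-M).  The star flux is a difference of the masses `rho`.

`ssum m M (n+1) = ∑_x ∑_{D : Fa (D \ st x) ∧ ¬ Fa D} nu D` (exchange the sums).  `Fa D` implies
`Fa (D \ st x)` (`Fa.anti`, `sdiff_subset`), so for each `x` the inner sum is
`∑_{D : Fa (D \ st x)} nu D - ∑_{D : Fa D} nu D = ∑_{D : Fa (D \ st x)} nu D - rho m M (n+1)`.  By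
`fa_symm` the first sum does not depend on `x`; for `x = Fin.last n` it is, by `fa_lift`,
`∑_{D : Fa (dn D)} nu D = ∑_E nu E [Fa E] = rho m M n` by `nu_proj` with `j = up`,
`g E = if Fa m M E then 1 else 0` (`dn D = univ.filter (fun e => up e ∈ D)` by definition).
-/

open Finset
open scoped Classical Nat

namespace Pool.Agent.Work.MP_73831e_pr.F

private theorem sum_st {n m M : ℕ} (hm : 1 ≤ m) (hM : 2 ≤ M) (x : Fin (n + 1)) :
    ∑ D ∈ univ.filter (fun D : Finset (Pr (n + 1)) => Fa m M (D \ st x)), nu D = rho m M n := by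
  rw [fa_symm x (Fin.last n)]
  have h1 := nu_proj (up (n := n)) (fun E => if Fa m M E then (1 : ℝ) else 0)
  have h2 : ∑ D : Finset (Pr (n + 1)), nu D * (if Fa m M (univ.filter (fun p => up p ∈ D)) then
      (1 : ℝ) else 0) = ∑ D ∈ univ.filter (fun D : Finset (Pr (n + 1)) =>
        Fa m M (D \ st (Fin.last n))), nu D := by
    rw [sum_filter]
    refine sum_congr rfl fun D _ => ?_
    have h3 := fa_lift hm hM D
    by_cases h4 : Fa m M (D \ st (Fin.last n))
    · have h5 : Fa m M (univ.filter (fun p => up p ∈ D)) := h3.1 h4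
      rw [if_pos h4, if_pos h5, mul_one]
    · have h5 : ¬ Fa m M (univ.filter (fun p => up p ∈ D)) := fun h => h4 (h3.2 h)
      rw [if_neg h4, if_neg h5, mul_zero]
  have h3 : ∑ E : Finset (Pr n), nu E * (if Fa m M E then (1 : ℝ) else 0) = rho m M n := by
    unfold rho
    rw [sum_filter]
    refine sum_congr rfl fun E _ => ?_
    by_cases h4 : Fa m M E
    · rw [if_pos h4, if_pos h4, mul_one]
    · rw [if_neg h4, if_neg h4, mul_zero]
  rw [← h2, ← h3]
  convert h1

private theorem sum_diff {n m M : ℕ} (x : Fin n) :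
    ∑ D ∈ univ.filter (fun D : Finset (Pr n) => Fa m M (D \ st x) ∧ ¬ Fa m M D), nu D =
      ∑ D ∈ univ.filter (fun D : Finset (Pr n) => Fa m M (D \ st x)), nu D - rho m M n := by
  unfold rho
  rw [eq_sub_iff_add_eq, sum_filter, sum_filter, sum_filter, ← sum_add_distrib]
  refine sum_congr rfl fun D _ => ?_
  by_cases h1 : Fa m M D
  · have h2 : Fa m M (D \ st x) := h1.anti sdiff_subset
    rw [if_neg (fun h => h.2 h1), if_pos h1, if_pos h2, zero_add]
  · by_cases h2 : Fa m M (D \ st x)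
    · rw [if_pos ⟨h2, h1⟩, if_neg h1, if_pos h2, add_zero]
    · rw [if_neg (fun h => h2 h.1), if_neg h1, if_neg h2, add_zero]

theorem ssum_eq {n m M : ℕ} (hm : 1 ≤ m) (hM : 2 ≤ M) :
    ssum m M (n + 1) = ((n : ℝ) + 1) * (rho m M n - rho m M (n + 1)) := by
  have h1 : ssum m M (n + 1) = ∑ x : Fin (n + 1),
      ∑ D ∈ univ.filter (fun D : Finset (Pr (n + 1)) => Fa m M (D \ st x) ∧ ¬ Fa m M D), nu D := by
    unfold ssum
    simp only [sum_filter]
    rw [sum_comm]
    refine sum_congr rfl fun D _ => ?_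
    rw [← sum_filter, sum_const, nsmul_eq_mul, mul_comm]
  rw [h1, sum_congr rfl (fun x _ => (sum_diff x).trans (by rw [sum_st hm hM x])), sum_const,
    card_univ, Fintype.card_fin, nsmul_eq_mul]
  push_cast
  rfl

end Pool.Agent.Work.MP_73831e_pr.F
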